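import Pool.Agent.H.MP_72200a_co.S

set_option linter.unusedSectionVars false

namespace Pool.Agent.H.MP_72200a_co
open Finset Pool.Agent.H.MP_e84969_co Filter Topology

lemma le2 {x : ℕ} (a b : ℕ) (hb : b ≠ 0) (h : x ^ b ≤ 2 ^ a) :
    (x : ℝ) ≤ (2 : ℝ) ^ ((a : ℝ) / b) := by
  refine le_of_pow_le_pow_left₀ hb (by positivity) ?_
  rw [← Real.rpow_natCast (_ ^ _), ← Real.rpow_mul (by norm_num),
    div_mul_cancel₀ _ (by exact_mod_cast hb), Real.rpow_natCast]
  exact_mod_cast h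

noncomputable def al : ℕ → ℝ
  | 1 => 717 / 200 | 2 => 1661 / 500 | 3 => 317 / 100 | 4 => 351 / 125 | 5 => 517 / 200
  | _ => 1161 / 500

lemma II_le (e : ℕ) (h1 : 1 ≤ e) (h6 : e ≤ 6) : (II e : ℝ) ≤ 2 ^ al e := by
  interval_cases e
  · simpa [II, al] using le2 (x := 12) 717 200 (by norm_num) (by decide +kernel)
  · simpa [II, al] using le2 (x := 10) 1661 500 (by norm_num) (by decide +kernel)
  · simpa [II, al] using le2 (x := 9) 317 100 (by norm_num) (by decide +kernel)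
  · simpa [II, al] using le2 (x := 7) 351 125 (by norm_num) (by decide +kernel)
  · simpa [II, al] using le2 (x := 6) 517 200 (by norm_num) (by decide +kernel)
  · simpa [II, al] using le2 (x := 5) 1161 500 (by norm_num) (by decide +kernel)

variable {M : Type} [Fintype M] [DecidableEq M]

lemma UJ {k : ℕ} (hk : 4 ≤ k) {c X : ℝ} (hc : 0 ≤ c)
    (hX : ∀ e : ℕ, 1 ≤ e → e ≤ 6 → al e * Fintype.card M + c * ((k / 3 + 3) * e) ≤ X) :
    ∑ v : Fin k → M → Bool, (2 : ℝ) ^ (c * (EE v).card) ≤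
      (16 ^ Fintype.card M + 64 * (2 : ℝ) ^ X) ^ (k / 4) * (2 ^ Fintype.card M) ^ (k % 4) := by
  have h := jensen (ι := Fin k) (W := M → Bool) dd (k / 4) (k % 4) (by omega)
    (by rw [Fintype.card_fin]; omega) (c * Real.log 2 / 2)
  have e1 : ∀ v : Fin k → M → Bool, (2 : ℝ) ^ (c * (EE v).card) =
      Real.exp (c * Real.log 2 / 2 * D2 dd v) := by
    intro v; rw [D2_EE, Real.rpow_def_of_pos (by norm_num)]; congr 1; ring
  simp only [e1]
  refine h.trans (mul_le_mul (pow_le_pow_left₀ (by positivity) (block _ _ (fun e h1 h6 => ?_)) _)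
    (by simp) (by positivity) (by positivity))
  refine le_trans ?_ (Real.rpow_le_rpow_of_exponent_le (by norm_num) (hX e h1 h6))
  rw [Real.rpow_add (by norm_num), Real.rpow_mul (by norm_num), Real.rpow_natCast]
  refine mul_le_mul (pow_le_pow_left₀ (by positivity) (II_le e h1 h6) _) ?_ (by positivity)
    (by positivity)
  rw [Real.rpow_def_of_pos (by norm_num), Real.exp_le_exp, Fintype.card_fin]
  have hp : (k : ℝ) * (k - 1) / (12 * ((k / 4 : ℕ) : ℝ)) ≤ k / 3 + 3 := by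
    have a1 : (1 : ℝ) ≤ ((k / 4 : ℕ) : ℝ) := by exact_mod_cast (by omega : 1 ≤ k / 4)
    have a2 : (k : ℝ) ≤ 4 * ((k / 4 : ℕ) : ℝ) + 3 := by exact_mod_cast (by omega : k ≤ 4 * (k / 4) + 3)
    have a3 : 4 * ((k / 4 : ℕ) : ℝ) ≤ k := by exact_mod_cast (by omega : 4 * (k / 4) ≤ k)
    rw [div_le_iff₀ (by positivity)]
    nlinarith
  have hl : 0 ≤ Real.log 2 := Real.log_nonneg (by norm_num)
  calc _ = Real.log 2 * (c * (((k : ℝ) * (k - 1) / (12 * ((k / 4 : ℕ) : ℝ))) * e)) := by ring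
    _ ≤ _ := by gcongr

lemma three : (3 : ℝ) ≤ 2 ^ (317 / 200 : ℝ) := by
  simpa using le2 (x := 3) 317 200 (by norm_num) (by decide +kernel)

lemma UU3 (k : ℕ) : UU k M ≤ ∑ v : Fin k → M → Bool, (2 : ℝ) ^ (317 / 200 * (EE v).card : ℝ) := by
  refine sum_le_sum (fun v _ => (comp3 v).trans ?_)
  rw [Real.rpow_mul (by norm_num), Real.rpow_natCast]
  exact pow_le_pow_left₀ (by norm_num) three _

lemma regA {n k : ℕ} (hn : 16 ≤ n) (h1 : n ≤ 4 * k) (h2 : 100 * k ≤ 51 * n)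
    (hM : Fintype.card M = 2 * (n - k)) :
    UU k M ≤ 4 ^ (k * (n - k)) * (1 + 64 * (2 : ℝ) ^ (29 - n / 200 : ℝ)) ^ n := by
  have hm : (Fintype.card M : ℝ) = 2 * (n - k) := by
    rw [hM]; push_cast [Nat.cast_sub (by omega : k ≤ n)]; ring
  have a2 : (100 : ℝ) * k ≤ 51 * n := by exact_mod_cast h2
  have a0 : (0 : ℝ) ≤ k := by positivity
  refine (UU3 k).trans ((UJ (by omega) (X := 4 * Fintype.card M + (29 - n / 200)) (by norm_num)
    (fun e e1 e6 => ?_)).trans ?_)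
  · rw [hm]; interval_cases e <;> simp only [al] <;> push_cast <;> linarith
  · have e1 : (2 : ℝ) ^ (4 * (Fintype.card M : ℝ) + (29 - n / 200)) =
        16 ^ Fintype.card M * 2 ^ (29 - n / 200 : ℝ) := by
      rw [Real.rpow_add (by norm_num), Real.rpow_mul (by norm_num), Real.rpow_natCast]; norm_num
    have e2 : (4 : ℝ) ^ (k * (n - k)) =
        (16 ^ Fintype.card M) ^ (k / 4) * (2 ^ Fintype.card M) ^ (k % 4) := by
      rw [show (16 : ℝ) = 2 ^ 4 by norm_num, show (4 : ℝ) = 2 ^ 2 by norm_num]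
      simp only [← pow_mul, ← pow_add]
      congr 1
      rw [hM]
      generalize n - k = d
      conv_lhs => rw [← Nat.div_add_mod k 4]
      ring
    rw [e1, e2]
    have e3 : (1 + 64 * (2 : ℝ) ^ (29 - n / 200 : ℝ)) ^ (k / 4) ≤
        (1 + 64 * (2 : ℝ) ^ (29 - n / 200 : ℝ)) ^ n :=
      pow_le_pow_right₀ (le_add_of_nonneg_right (by positivity)) (by omega)
    calc _ = (16 ^ Fintype.card M) ^ (k / 4) * (2 ^ Fintype.card M) ^ (k % 4) *
        (1 + 64 * (2 : ℝ) ^ (29 - n / 200 : ℝ)) ^ (k / 4) := by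
          rw [mul_right_comm, ← mul_pow]; congr 2; ring
      _ ≤ _ := by gcongr

noncomputable def Out (n : ℕ) : ℝ := (n : ℝ) ^ n * 2 ^ (2499 / 5000 * (n : ℝ) ^ 2 + 7 * n)

lemma le_Out {n : ℕ} (hn : 1 ≤ n) {x : ℝ} (h : x ≤ 2499 / 5000 * (n : ℝ) ^ 2) :
    (2 : ℝ) ^ x ≤ Out n := by
  have a1 : (1 : ℝ) ≤ (n : ℝ) ^ n := one_le_pow₀ (by exact_mod_cast hn)
  refine le_trans ?_ (le_mul_of_one_le_left (by positivity) a1)
  refine Real.rpow_le_rpow_of_exponent_le (by norm_num) (h.trans ?_)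
  have : (0 : ℝ) ≤ n := by positivity
  linarith

lemma regS {n k : ℕ} (h1 : 4 * k < n) (hM : Fintype.card M = 2 * (n - k)) : UU k M ≤ Out n := by
  have hm : (Fintype.card M : ℝ) = 2 * (n - k) := by
    rw [hM]; push_cast [Nat.cast_sub (by omega : k ≤ n)]; ring
  refine (UU3 k).trans ((sum_le_card_nsmul _ _ ((2 : ℝ) ^ (317 / 200 * (k : ℝ) ^ 2)) (fun v _ =>
    Real.rpow_le_rpow_of_exponent_le (by norm_num) ?_)).trans ?_)
  · have := card_le_univ (EE v)
    simp only [Fintype.card_prod, Fintype.card_fin] at this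
    have h : ((EE v).card : ℝ) ≤ k * k := by exact_mod_cast this
    nlinarith
  · simp only [card_univ, Fintype.card_pi, Fintype.card_bool, prod_const, Fintype.card_fin,
      nsmul_eq_mul]
    push_cast
    rw [← pow_mul, ← Real.rpow_natCast, ← Real.rpow_add (by norm_num)]
    refine le_Out (by omega) ?_
    push_cast
    rw [hm]
    have a1 : (4 : ℝ) * k ≤ n := by exact_mod_cast h1.le
    have a0 : (0 : ℝ) ≤ k := by positivity
    nlinarith

lemma regB {n k : ℕ} (hk : 4 ≤ k) (h1 : k ≤ n) (hM : Fintype.card M = 2 * (n - k)) {β : ℝ}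
    (b1 : β ≤ 1) (b0 : 117 / 125 ≤ β)
    (q0 : 4 * (2 * ((n : ℝ) - k)) * (k / 4) ≤ 2499 / 5000 * (n : ℝ) ^ 2 - (1 - β) * (k ^ 2 / 4))
    (q1 : ∀ e : ℕ, 1 ≤ e → e ≤ 6 → (al e * (2 * ((n : ℝ) - k)) + β * (k / 3 * e)) * (k / 4) ≤
      2499 / 5000 * (n : ℝ) ^ 2 - (1 - β) * (k ^ 2 / 4)) : UU k M ≤ Out n := by
  have hm : (Fintype.card M : ℝ) = 2 * (n - k) := by
    rw [hM]; push_cast [Nat.cast_sub h1]; ring
  have h7 : (7 : ℝ) ≤ 2 ^ (3 * β) :=
    le_trans (by simpa using le2 (x := 7) 351 125 (by norm_num) (by decide +kernel))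
      (Real.rpow_le_rpow_of_exponent_le (by norm_num) (by linarith : (351 / 125 : ℝ) ≤ 3 * β))
  have k0 : (0 : ℝ) < k := by exact_mod_cast (by omega : 0 < k)
  have kn : (k : ℝ) ≤ n := by exact_mod_cast h1
  set Y := 2499 / 5000 * (n : ℝ) ^ 2 - (1 - β) * (k ^ 2 / 4) with hY
  have hJ := UJ (M := M) hk (c := β) (X := Y / (k / 4) + 18) (by linarith) (fun e e1 e6 => by
    have a1 := (le_div_iff₀ (by positivity)).2 (q1 e e1 e6)
    have a2 : (e : ℝ) ≤ 6 := by exact_mod_cast e6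
    have a3 : (0 : ℝ) ≤ e := by positivity
    rw [hm]; nlinarith)
  have a4 := (le_div_iff₀ (by positivity)).2 q0
  have a5 : (16 : ℝ) ^ Fintype.card M + 64 * (2 : ℝ) ^ (Y / (k / 4) + 18) ≤
      (2 : ℝ) ^ (Y / (k / 4) + 25) := by
    have c1 : (16 : ℝ) ^ Fintype.card M ≤ (2 : ℝ) ^ (Y / (k / 4) + 18) := by
      rw [show (16 : ℝ) = 2 ^ 4 by norm_num, ← pow_mul]
      refine pow_le_rpow (by norm_num) ?_
      push_cast; rw [hm]; linarith
    have c2 : (2 : ℝ) ^ (Y / (k / 4) + 25) = 128 * (2 : ℝ) ^ (Y / (k / 4) + 18) := by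
      rw [show Y / (k / 4) + 25 = (7 : ℕ) + (Y / (k / 4) + 18) by push_cast; ring,
        Real.rpow_add (by norm_num), Real.rpow_natCast]; norm_num
    have c3 : 0 ≤ (2 : ℝ) ^ (Y / (k / 4) + 18) := by positivity
    linarith
  have a6 : ∑ v : Fin k → M → Bool, (2 : ℝ) ^ (β * (EE v).card) ≤ (2 : ℝ) ^ (Y + 7 * n) := by
    refine hJ.trans ((mul_le_mul_of_nonneg_right (pow_le_pow_left₀ (by positivity) a5 _)
      (by positivity)).trans ?_)
    rw [← Real.rpow_natCast (_ ^ _) (k / 4), ← Real.rpow_mul (by norm_num), ← pow_mul,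
      ← Real.rpow_natCast, ← Real.rpow_add (by norm_num)]
    refine Real.rpow_le_rpow_of_exponent_le (by norm_num) ?_
    have d1 : ((k / 4 : ℕ) : ℝ) ≤ k / 4 := Nat.cast_div_le
    have d2 : ((k % 4 : ℕ) : ℝ) ≤ 3 := by exact_mod_cast (by omega : k % 4 ≤ 3)
    have d3 : 0 ≤ Y / (k / 4) + 25 := by nlinarith
    have d4 := mul_le_mul_of_nonneg_left d1 d3
    have d5 : (Y / (k / 4) + 25) * (k / 4) = Y + 25 * (k / 4) := by field_simp
    rw [Nat.cast_mul, hm]
    nlinarith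
  have a7 : (k.factorial : ℝ) ≤ (n : ℝ) ^ n := by
    exact_mod_cast (Nat.factorial_le h1).trans (Nat.factorial_le_pow n)
  refine (sum_le_sum (fun v _ => comp2 b1 h7 v)).trans ?_
  simp only [Real.rpow_add (by norm_num : (0 : ℝ) < 2), ← mul_sum, ← sum_mul]
  refine mul_le_mul a7 ((mul_le_mul_of_nonneg_right a6 (by positivity)).trans (le_of_eq ?_))
    (by positivity) (by positivity)
  rw [← Real.rpow_add (by norm_num)]; congr 1; rw [hY]; ring

lemma regO {n k : ℕ} (hn : 16 ≤ n) (h1 : k ≤ n) (h2 : 51 * n < 100 * k)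
    (hM : Fintype.card M = 2 * (n - k)) : UU k M ≤ Out n := by
  have a1 : (k : ℝ) ≤ n := by exact_mod_cast h1
  have a2 : (51 : ℝ) * n ≤ 100 * k := by exact_mod_cast h2.le
  have a0 : (0 : ℝ) ≤ n := by positivity
  by_cases h : 10 * k ≤ 7 * n
  · have a3 : (10 : ℝ) * k ≤ 7 * n := by exact_mod_cast h
    refine regB (by omega) h1 hM le_rfl (by norm_num) (by nlinarith) (fun e e1 e6 => ?_)
    interval_cases e <;> simp only [al] <;> push_cast <;>
      nlinarith [sq_nonneg ((k : ℝ) - 0.55 * n), sq_nonneg ((k : ℝ) - 0.6 * n),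
        sq_nonneg ((k : ℝ) - 0.7 * n), mul_nonneg a0 (sub_nonneg.2 a3)]
  · have a3 : (7 : ℝ) * n ≤ 10 * k := by exact_mod_cast (by omega : 7 * n ≤ 10 * k)
    refine regB (β := 117 / 125) (by omega) h1 hM (by norm_num) le_rfl (by nlinarith)
      (fun e e1 e6 => ?_)
    interval_cases e <;> simp only [al] <;> push_cast <;>
      nlinarith [sq_nonneg ((k : ℝ) - 0.857 * n), sq_nonneg ((k : ℝ) - 0.6 * n),
        sq_nonneg ((k : ℝ) - 0.73 * n), mul_nonneg a0 (sub_nonneg.2 a3)]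

end Pool.Agent.H.MP_72200a_co
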