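import Pool.Agent.H.MP_72200a_co.B

set_option linter.unusedSectionVars false

namespace Pool.Agent.H.MP_72200a_co
open Finset Pool.Agent.H.MP_e84969_co Filter Topology

noncomputable def ff (n : ℕ) : ℝ :=
  ∑ k ∈ range (n + 1), (n.choose k : ℝ) * n.descFactorial k * 4 ^ (k * (n - k))

noncomputable def err (n : ℕ) : ℝ := (n + 1) * (2 ^ n * (n : ℝ) ^ n * Out n)

lemma Out_nonneg (n : ℕ) : 0 ≤ Out n := by unfold Out; positivity

lemma coef_le {n k : ℕ} (hn : 1 ≤ n) (hk : k ≤ n) :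
    (n.choose k : ℝ) * n.descFactorial k ≤ 2 ^ n * (n : ℝ) ^ n := by
  exact_mod_cast Nat.mul_le_mul (Nat.choose_le_two_pow n k)
    ((Nat.descFactorial_le_pow n k).trans (Nat.pow_le_pow_right hn hk))

lemma up {n : ℕ} (hn : 16 ≤ n) : cnt (Reg (n := n)) ≤
    ff n * (1 + 64 * (2 : ℝ) ^ (29 - n / 200 : ℝ)) ^ n + err n := by
  have hO := Out_nonneg n
  refine (upper (fun k => 4 ^ (k * (n - k)) * (1 + 64 * (2 : ℝ) ^ (29 - n / 200 : ℝ)) ^ n + Out n)
    (fun k hk M _ _ hM => ?_)).trans ?_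
  · by_cases h1 : 4 * k < n
    · exact (regS h1 hM).trans (le_add_of_nonneg_left (by positivity))
    by_cases h2 : 51 * n < 100 * k
    · exact (regO hn hk h2 hM).trans (le_add_of_nonneg_left (by positivity))
    · exact (regA hn (by omega) (by omega) hM).trans (le_add_of_nonneg_right hO)
  · simp only [mul_add, sum_add_distrib, ← mul_assoc]
    rw [← sum_mul]
    refine add_le_add le_rfl ((sum_le_card_nsmul _ _ (2 ^ n * (n : ℝ) ^ n * Out n)
      (fun k hk => ?_)).trans (by simp [err]))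
    exact mul_le_mul_of_nonneg_right (coef_le (by omega) (by simp at hk; omega)) hO

lemma low {n : ℕ} (hn : 1 ≤ n) :
    ff n * (1 - 2 * (n : ℝ) ^ 2 * ((2 : ℝ) ^ (-1 / 4 : ℝ)) ^ n) - err n ≤ cnt (Reg (n := n)) := by
  have hO := Out_nonneg n
  refine le_trans ?_ lower
  have e : err n = ∑ _k ∈ range (n + 1), 2 ^ n * (n : ℝ) ^ n * Out n := by simp [err]
  rw [e, ff, sum_mul, ← sum_sub_distrib]
  refine sum_le_sum (fun k hk => ?_)
  have hk' : k ≤ n := by simp at hk; omega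
  have kn : (k : ℝ) ≤ n := by exact_mod_cast hk'
  have h0 : (k : ℝ) < 2 ^ k := by exact_mod_cast Nat.lt_two_pow_self
  set z := 2 * (n : ℝ) ^ 2 * ((2 : ℝ) ^ (-1 / 4 : ℝ)) ^ n with hz
  have z0 : 0 ≤ z := by positivity
  have p0 : 0 ≤ ((2 : ℝ) ^ k - k) ^ (2 * (n - k)) := pow_nonneg (by linarith) _
  by_cases h1 : 4 * k < n
  · have a1 : (4 : ℝ) ^ (k * (n - k)) ≤ Out n := by
      rw [show (4 : ℝ) = 2 ^ 2 by norm_num, ← pow_mul, ← Real.rpow_natCast]
      refine le_Out hn ?_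
      push_cast [Nat.cast_sub hk']
      have a1 : (4 : ℝ) * k ≤ n := by exact_mod_cast h1.le
      have a0 : (0 : ℝ) ≤ k := by positivity
      nlinarith
    have a2 := mul_le_mul (coef_le hn hk') a1 (by positivity) (by positivity)
    have a3 : 0 ≤ (n.choose k : ℝ) * n.descFactorial k * 4 ^ (k * (n - k)) * z := by positivity
    have a4 : 0 ≤ (n.choose k : ℝ) * n.descFactorial k * ((2 : ℝ) ^ k - k) ^ (2 * (n - k)) := by
      positivity
    linarith
  · have a1 : (k : ℝ) / 2 ^ k ≤ n * ((2 : ℝ) ^ (-1 / 4 : ℝ)) ^ n := by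
      rw [div_eq_mul_inv]
      refine mul_le_mul kn ?_ (by positivity) (by positivity)
      rw [← Real.rpow_natCast, ← Real.rpow_neg (by norm_num), ← Real.rpow_natCast,
        ← Real.rpow_mul (by norm_num)]
      refine Real.rpow_le_rpow_of_exponent_le (by norm_num) ?_
      have : (n : ℝ) ≤ 4 * k := by exact_mod_cast (by omega : n ≤ 4 * k)
      linarith
    have a2 : (k : ℝ) / 2 ^ k ≤ 1 := by rw [div_le_one (by positivity)]; exact h0.le
    have a3 := one_add_mul_le_pow (a := -((k : ℝ) / 2 ^ k)) (by linarith) (2 * (n - k))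
    have a4 : ((2 : ℝ) ^ k - k) ^ (2 * (n - k)) =
        4 ^ (k * (n - k)) * (1 + -((k : ℝ) / 2 ^ k)) ^ (2 * (n - k)) := by
      rw [show (4 : ℝ) = 2 ^ 2 by norm_num, ← pow_mul, mul_left_comm, pow_mul 2 k, ← mul_pow]
      congr 1; field_simp; ring
    have a5 : ((2 * (n - k) : ℕ) : ℝ) ≤ 2 * n := by exact_mod_cast (by omega : 2 * (n - k) ≤ 2 * n)
    have a6 := mul_le_mul a5 a1 (by positivity) (by positivity)
    have a7 : 1 - z ≤ (1 + -((k : ℝ) / 2 ^ k)) ^ (2 * (n - k)) := by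
      refine le_trans ?_ a3
      rw [hz]; nlinarith
    rw [a4, ← mul_assoc]
    refine (sub_le_self _ (by positivity)).trans (mul_le_mul_of_nonneg_left a7 (by positivity))

lemma ff_ge (n : ℕ) : (2 : ℝ) ^ (((n : ℝ) ^ 2 - 1) / 2) ≤ ff n := by
  refine le_trans ?_ (single_le_sum (f := fun k =>
    (n.choose k : ℝ) * n.descFactorial k * 4 ^ (k * (n - k))) (fun _ _ => by positivity)
    (a := n / 2) (by simp; omega))
  have h1 : (1 : ℝ) ≤ (n.choose (n / 2) : ℝ) * n.descFactorial (n / 2) := by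
    exact_mod_cast Nat.mul_pos (Nat.choose_pos (Nat.div_le_self _ _))
      (Nat.descFactorial_pos.2 (Nat.div_le_self _ _))
  refine le_trans ?_ (le_mul_of_one_le_left (by positivity) h1)
  rw [show (4 : ℝ) = 2 ^ 2 by norm_num, ← pow_mul, ← Real.rpow_natCast 2]
  refine Real.rpow_le_rpow_of_exponent_le (by norm_num) ?_
  obtain ⟨k, rfl | rfl⟩ := Nat.even_or_odd' n
  · rw [show 2 * k / 2 = k by omega, show 2 * k - k = k by omega]; push_cast; nlinarith
  · rw [show (2 * k + 1) / 2 = k by omega, show 2 * k + 1 - k = k + 1 by omega]; push_cast; nlinarith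

lemma ff_pos (n : ℕ) : 0 < ff n := lt_of_lt_of_le (by positivity) (ff_ge n)

lemma limE : Tendsto (fun n => err n / ff n) atTop (𝓝 0) := by
  set r := (2 : ℝ) ^ (-1 / 5000 : ℝ) with hr
  have r0 : 0 < r := by positivity
  have r1 : r < 1 := Real.rpow_lt_one_of_one_lt_of_neg (by norm_num) (by norm_num)
  have h1 := (polygeo 2 r0 r1).const_mul (256 : ℝ)
  have h3 := (polygeo 1 (r := 1 / 2) (by norm_num) (by norm_num)).const_mul (2 : ℝ)
  rw [mul_zero] at h1 h3
  refine squeeze_zero' (Eventually.of_forall (fun n => div_nonneg (by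
    have := Out_nonneg n; unfold err; positivity) (ff_pos n).le)) ?_ h3
  filter_upwards [h1.eventually (ge_mem_nhds (by norm_num : (0 : ℝ) < 1 / 2))] with n hn
  rw [div_le_iff₀ (ff_pos n)]
  refine le_trans ?_ (mul_le_mul_of_nonneg_left (ff_ge n) (by positivity))
  have e : (2 : ℝ) ^ (2499 / 5000 * (n : ℝ) ^ 2 + 7 * n) ≤
      128 ^ n * (r ^ n) ^ n * (2 * (2 : ℝ) ^ (((n : ℝ) ^ 2 - 1) / 2)) := by
    rw [hr, ← pow_mul, ← Real.rpow_natCast _ (n * n), ← Real.rpow_mul (by norm_num),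
      show (128 : ℝ) = 2 ^ 7 by norm_num, ← pow_mul, ← Real.rpow_natCast 2 (7 * n),
      mul_comm (2 : ℝ) (_ ^ _), ← Real.rpow_add_one (by norm_num), ← Real.rpow_add (by norm_num),
      ← Real.rpow_add (by norm_num)]
    refine Real.rpow_le_rpow_of_exponent_le (by norm_num) ?_
    push_cast; nlinarith
  have n1 : (n : ℝ) ≤ n + 1 := by linarith
  unfold err Out
  calc _ ≤ ((n : ℝ) + 1) * (2 ^ n * (n + 1) ^ n * ((n + 1) ^ n *
      (128 ^ n * (r ^ n) ^ n * (2 * (2 : ℝ) ^ (((n : ℝ) ^ 2 - 1) / 2))))) := by gcongr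
    _ = 2 * ((n + 1) ^ 1 * (256 * ((n + 1) ^ 2 * r ^ n)) ^ n) *
        (2 : ℝ) ^ (((n : ℝ) ^ 2 - 1) / 2) := by
        rw [mul_pow, mul_pow, show (256 : ℝ) = 2 * 128 by norm_num, mul_pow, sq ((n : ℝ) + 1),
          mul_pow]; ring
    _ ≤ _ := by gcongr

lemma limA : Tendsto (fun n : ℕ => (1 + 64 * (2 : ℝ) ^ (29 - n / 200 : ℝ)) ^ n) atTop (𝓝 1) := by
  set r := (2 : ℝ) ^ (-1 / 200 : ℝ) with hr
  have r0 : 0 < r := by positivity
  have r1 : r < 1 := Real.rpow_lt_one_of_one_lt_of_neg (by norm_num) (by norm_num)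
  have e : ∀ n : ℕ, (2 : ℝ) ^ (29 - n / 200 : ℝ) = 2 ^ (29 : ℝ) * r ^ n := by
    intro n
    rw [hr, ← Real.rpow_natCast, ← Real.rpow_mul (by norm_num), ← Real.rpow_add (by norm_num)]
    congr 1; ring
  simp only [e]
  have h1 := (polygeo 1 r0 r1).const_mul (64 * (2 : ℝ) ^ (29 : ℝ))
  rw [mul_zero] at h1
  have h2 := (Real.continuous_exp.tendsto 0).comp h1
  rw [Real.exp_zero] at h2
  refine tendsto_of_tendsto_of_tendsto_of_le_of_le tendsto_const_nhds h2
    (fun n => one_le_pow₀ (le_add_of_nonneg_right (by positivity))) (fun n => ?_)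
  simp only [Function.comp]
  calc _ ≤ Real.exp (64 * (2 ^ (29 : ℝ) * r ^ n)) ^ n :=
        pow_le_pow_left₀ (by positivity) (by linarith [Real.add_one_le_exp (64 * (2 ^ (29 : ℝ) * r ^ n))]) n
    _ = Real.exp (64 * 2 ^ (29 : ℝ) * (n * r ^ n)) := by rw [← Real.exp_nat_mul]; congr 1; ring
    _ ≤ _ := by gcongr; rw [pow_one]; linarith

lemma limZ : Tendsto (fun n : ℕ => 2 * (n : ℝ) ^ 2 * ((2 : ℝ) ^ (-1 / 4 : ℝ)) ^ n) atTop (𝓝 0) := by
  have h := (tendsto_pow_const_mul_const_pow_of_abs_lt_one 2 (r := (2 : ℝ) ^ (-1 / 4 : ℝ)) (by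
    rw [abs_of_pos (by positivity)]
    exact Real.rpow_lt_one_of_one_lt_of_neg (by norm_num) (by norm_num))).const_mul 2
  rw [mul_zero] at h
  simpa only [mul_assoc] using h

theorem main : Tendsto (fun n => cnt (Reg (n := n)) / ff n) atTop (𝓝 1) := by
  have h1 := (limZ.const_sub 1).sub limE
  have h2 := limA.add limE
  rw [sub_zero, sub_zero] at h1
  rw [add_zero] at h2
  refine tendsto_of_tendsto_of_tendsto_of_le_of_le' h1 h2 ?_ ?_
  · filter_upwards [eventually_ge_atTop 1] with n hn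
    rw [le_div_iff₀ (ff_pos n), sub_mul, div_mul_cancel₀ _ (ff_pos n).ne', mul_comm]
    exact low hn
  · filter_upwards [eventually_ge_atTop 16] with n hn
    rw [div_le_iff₀ (ff_pos n), add_mul, div_mul_cancel₀ _ (ff_pos n).ne', mul_comm]
    exact up hn

end Pool.Agent.H.MP_72200a_co
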