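import Pool.Agent.H.MP_e84969_co.M

set_option linter.unusedSectionVars false

namespace Pool.Agent.H.MP_72200a_co
open Finset Pool.Agent.H.MP_e84969_co

section J
variable {ι : Type} [Fintype ι] [DecidableEq ι]

lemma avg {u u' : ι} (h : u ≠ u') (g : ι → ι → ℝ) :
    ((Fintype.card ι : ℝ) * (Fintype.card ι - 1)) * ∑ σ : Equiv.Perm ι, g (σ u) (σ u') =
      (Fintype.card ι).factorial * ∑ x, ∑ y, if x ≠ y then g x y else 0 := by
  have h1 : ∀ w w', w ≠ w' → ∑ σ : Equiv.Perm ι, g (σ w) (σ w') =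
      ∑ σ : Equiv.Perm ι, g (σ u) (σ u') := by
    intro w w' hw
    obtain ⟨τ, hτ⟩ := Equiv.Perm.exists_extending_pair (f := ![u, u']) (g := ![w, w'])
      (by intro a b; fin_cases a <;> fin_cases b <;> simp [h, h.symm])
      (by intro a b; fin_cases a <;> fin_cases b <;> simp [hw, hw.symm])
    have e1 : τ u = w := hτ 0
    have e2 : τ u' = w' := hτ 1
    rw [← Equiv.sum_comp (Equiv.mulRight τ) (fun σ : Equiv.Perm ι => g (σ u) (σ u'))]
    simp [e1, e2]
  set c := ∑ σ : Equiv.Perm ι, g (σ u) (σ u') with hc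
  have h2 : ∑ w, ∑ w', (if w ≠ w' then ∑ σ : Equiv.Perm ι, g (σ w) (σ w') else 0) =
      ((Fintype.card ι : ℝ) * (Fintype.card ι - 1)) * c := by
    have : ∀ w, ∑ w', (if w ≠ w' then ∑ σ : Equiv.Perm ι, g (σ w) (σ w') else 0) =
        (Fintype.card ι - 1) * c := by
      intro w
      rw [sum_congr rfl (g := fun w' => c - if w = w' then c else 0) (fun w' _ => by
        by_cases hw : w = w'
        · simp [hw]
        · simp [hw, h1 w w' hw]), sum_sub_distrib]
      simp; ring
    simp only [this]; simp; ring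
  rw [← h2]
  have h3 : ∀ w w', (if w ≠ w' then ∑ σ : Equiv.Perm ι, g (σ w) (σ w') else 0) =
      ∑ σ : Equiv.Perm ι, if σ w ≠ σ w' then g (σ w) (σ w') else 0 := by
    intro w w'; by_cases hw : w = w' <;> simp [hw]
  simp only [h3]
  rw [sum_congr rfl (fun w _ => sum_comm), sum_comm]
  have h4 : ∀ σ : Equiv.Perm ι, ∑ w, ∑ w', (if σ w ≠ σ w' then g (σ w) (σ w') else 0) =
      ∑ x, ∑ y, if x ≠ y then g x y else 0 := by
    intro σ
    rw [← Equiv.sum_comp σ (fun x => ∑ y, if x ≠ y then g x y else 0)]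
    exact sum_congr rfl (fun w _ => Equiv.sum_comp σ (fun y => if σ w ≠ y then g (σ w) y else 0))
  simp only [h4]
  simp [Fintype.card_perm]

variable {W : Type} [Fintype W] [DecidableEq W] (d : W → W → ℝ)

def D2 {ι : Type} [Fintype ι] [DecidableEq ι] (v : ι → W) : ℝ :=
  ∑ x, ∑ y, if x ≠ y then d (v x) (v y) else 0

lemma D2_comp (v : ι → W) (σ : Equiv.Perm ι) : D2 d (v ∘ σ) = D2 d v := by
  unfold D2
  rw [← Equiv.sum_comp σ (fun x => ∑ y, if x ≠ y then d (v x) (v y) else 0)]
  refine sum_congr rfl (fun w _ => ?_)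
  rw [← Equiv.sum_comp σ (fun y => if σ w ≠ y then d (v (σ w)) (v y) else 0)]
  simp

lemma jensen (b r : ℕ) (hb : 0 < b) (hk : Fintype.card ι = 4 * b + r) (t : ℝ) :
    ∑ v : ι → W, Real.exp (t * D2 d v) ≤
      (∑ w : Fin 4 → W, Real.exp (t * ((Fintype.card ι : ℝ) * (Fintype.card ι - 1) / (12 * b)) *
        D2 d w)) ^ b * (Fintype.card W : ℝ) ^ r := by
  let e : (Fin b × Fin 4) ⊕ Fin r ≃ ι := Fintype.equivOfCardEq (by simp [hk]; ring)
  set K : ℝ := (Fintype.card ι : ℝ) * (Fintype.card ι - 1) with hK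
  set p := t * (K / (12 * b)) with hp
  have hb' : (0 : ℝ) < b := by exact_mod_cast hb
  have hf : (0 : ℝ) < (Fintype.card ι).factorial := by exact_mod_cast Nat.factorial_pos _
  let a : Equiv.Perm ι → (ι → W) → ℝ := fun σ v =>
    ∑ β : Fin b, D2 d (fun i : Fin 4 => v (σ (e (Sum.inl (β, i)))))
  have h1 : ∀ v, K * ∑ σ, a σ v = 12 * b * ((Fintype.card ι).factorial * D2 d v) := by
    intro v
    simp only [a]
    rw [sum_comm, mul_sum]
    have : ∀ β : Fin b, K * ∑ σ : Equiv.Perm ι, D2 d (fun i : Fin 4 => v (σ (e (Sum.inl (β, i))))) =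
        12 * ((Fintype.card ι).factorial * D2 d v) := by
      intro β
      have h2 : ∀ i j : Fin 4, K * ∑ σ : Equiv.Perm ι, (if i ≠ j then
          d (v (σ (e (Sum.inl (β, i))))) (v (σ (e (Sum.inl (β, j))))) else 0) =
          if i ≠ j then (Fintype.card ι).factorial * D2 d v else 0 := by
        intro i j
        by_cases hij : i = j
        · simp [hij]
        · simp only [ne_eq, hij, not_false_eq_true, if_true]
          exact avg (by simp [hij]) (fun x y => d (v x) (v y))
      conv_lhs => unfold D2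
      rw [sum_comm, mul_sum, sum_congr rfl (fun i _ => by rw [sum_comm, mul_sum])]
      simp only [h2]
      simp [Fin.sum_univ_four]; ring
    simp only [this]; simp; ring
  have h2 : ∀ v, Real.exp (t * D2 d v) ≤
      ∑ σ : Equiv.Perm ι, ((Fintype.card ι).factorial : ℝ)⁻¹ * Real.exp (p * a σ v) := by
    intro v
    have := convexOn_exp.map_sum_le (t := (univ : Finset (Equiv.Perm ι)))
      (w := fun _ => ((Fintype.card ι).factorial : ℝ)⁻¹) (p := fun σ => p * a σ v)
      (fun _ _ => by positivity) (by simp [Fintype.card_perm]; field_simp) (fun _ _ => trivial)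
    simp only [smul_eq_mul] at this
    refine le_trans (le_of_eq ?_) this
    congr 1
    rw [← mul_sum, ← mul_sum, hp]
    have h3 := h1 v
    field_simp
    linear_combination (-t) * h3
  have h3 : ∀ σ : Equiv.Perm ι, ∑ v : ι → W, Real.exp (p * a σ v) =
      (∑ w : Fin 4 → W, Real.exp (p * D2 d w)) ^ b * (Fintype.card W : ℝ) ^ r := by
    intro σ
    let E : (ι → W) ≃ (Fin b → Fin 4 → W) × (Fin r → W) :=
      ((Equiv.arrowCongr (e.trans σ).symm (Equiv.refl W)).trans
        (Equiv.sumArrowEquivProdArrow _ _ _)).trans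
        (Equiv.prodCongr (Equiv.curry _ _ _) (Equiv.refl _))
    have e1 : ∀ v, Real.exp (p * a σ v) = ∏ β, Real.exp (p * D2 d ((E v).1 β)) := by
      intro v
      rw [← Real.exp_sum, ← mul_sum]; rfl
    simp only [e1]
    rw [Equiv.sum_comp E (fun z => ∏ β, Real.exp (p * D2 d (z.1 β))), Fintype.sum_prod_type]
    simp only [sum_const, card_univ, nsmul_eq_mul]
    rw [← mul_sum, mul_comm, ← Fintype.piFinset_univ, ← prod_univ_sum (fun _ => univ)
      (fun (_ : Fin b) (w : Fin 4 → W) => Real.exp (p * D2 d w))]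
    simp
  refine (sum_le_sum (fun v _ => h2 v)).trans (le_of_eq ?_)
  rw [sum_comm]
  simp only [← mul_sum, h3]
  simp [Fintype.card_perm]
  field_simp

end J

section block
variable {M : Type} [Fintype M] [DecidableEq M]

def dj (a b : M → Bool) : Prop := ∀ l, ¬ (a l = true ∧ b l = true)

instance (a b : M → Bool) : Decidable (dj a b) := by unfold dj; infer_instance

lemma dj_comm (a b : M → Bool) : dj a b ↔ dj b a := by
  unfold dj; simp only [and_comm]

def dd (a b : M → Bool) : ℝ := if dj a b then 1 else 0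

def p1 : Fin 6 → Fin 4 := ![0, 0, 0, 1, 1, 2]
def p2 : Fin 6 → Fin 4 := ![1, 2, 3, 2, 3, 3]
def II : ℕ → ℕ
  | 0 => 16 | 1 => 12 | 2 => 10 | 3 => 9 | 4 => 7 | 5 => 6 | _ => 5

lemma ind_le : ∀ G : Finset (Fin 6), (univ.filter (fun z : Fin 4 → Bool =>
    ∀ e ∈ G, ¬ (z (p1 e) = true ∧ z (p2 e) = true))).card ≤ II G.card := by
  decide +kernel

lemma block (s B : ℝ) (hB : ∀ e, 1 ≤ e → e ≤ 6 →
      (II e : ℝ) ^ Fintype.card M * Real.exp (s * (2 * e)) ≤ B) :
    ∑ w : Fin 4 → M → Bool, Real.exp (s * D2 dd w) ≤ 16 ^ Fintype.card M + 64 * B := by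
  have hB0 : 0 ≤ B := le_trans (by positivity) (hB 1 le_rfl (by norm_num))
  let g : (Fin 4 → M → Bool) → Finset (Fin 6) := fun w =>
    univ.filter (fun e => dj (w (p1 e)) (w (p2 e)))
  have h1 : ∀ w, D2 dd w = 2 * (g w).card := by
    intro w
    simp only [g, card_filter, D2, Fin.sum_univ_four, Fin.sum_univ_six, dd, p1, p2]
    simp [dj_comm (w 1) (w 0), dj_comm (w 2) (w 0), dj_comm (w 3) (w 0), dj_comm (w 2) (w 1),
      dj_comm (w 3) (w 1), dj_comm (w 3) (w 2)]
    ring
  simp only [h1]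
  rw [← sum_fiberwise (s := univ) (g := g)]
  have h2 : ∀ G : Finset (Fin 6), ∑ w ∈ univ.filter (fun w => g w = G),
      Real.exp (s * (2 * ((g w).card : ℝ))) ≤
      (II G.card : ℝ) ^ Fintype.card M * Real.exp (s * (2 * G.card)) := by
    intro G
    rw [sum_congr rfl (g := fun _ => Real.exp (s * (2 * (G.card : ℝ)))) (fun w hw => by
      rw [(mem_filter.1 hw).2]), sum_const, nsmul_eq_mul, ← cnt_eq_card]
    refine mul_le_mul_of_nonneg_right ?_ (by positivity)
    refine (cnt_inj (r := fun z : M → Fin 4 → Bool => ∀ l, ∀ e ∈ G,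
      ¬ (z l (p1 e) = true ∧ z l (p2 e) = true)) (fun w l i => w i l) ?_ ?_).trans
      (cnt_pi (fun (_ : M) (z : Fin 4 → Bool) => ∀ e ∈ G,
        ¬ (z (p1 e) = true ∧ z (p2 e) = true)) _ (fun _ => ?_))
    · rintro w rfl l e he
      exact (mem_filter.1 he).2 l
    · intro w w' _ _ h; funext i l; exact congrFun (congrFun h l) i
    · rw [cnt_eq_card]; exact_mod_cast ind_le G
  refine (sum_le_sum (fun G _ => h2 G)).trans ?_
  rw [← add_sum_erase _ _ (mem_univ ∅)]
  refine add_le_add (by simp [II]) ?_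
  refine (sum_le_card_nsmul _ _ B (fun G hG => hB _ ?_ ?_)).trans ?_
  · exact card_pos.2 (nonempty_iff_ne_empty.2 (mem_erase.1 hG).1)
  · simpa using card_le_univ G
  · rw [nsmul_eq_mul]
    refine mul_le_mul_of_nonneg_right ?_ hB0
    have := card_le_univ ((univ : Finset (Finset (Fin 6))).erase ∅)
    simp only [Fintype.card_finset, Fintype.card_fin] at this
    exact_mod_cast this

end block

end Pool.Agent.H.MP_72200a_co
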