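import Pool.Agent.H.MP_72200a_co.J

set_option linter.unusedSectionVars false

namespace Pool.Agent.H.MP_72200a_co
open Finset Pool.Agent.H.MP_e84969_co

variable {k : ℕ}

lemma mantel (E : Finset (Fin k × Fin k)) (h1 : ∀ e ∈ E, e.1 < e.2)
    (h2 : ∀ a b c, (a, b) ∈ E → (b, c) ∈ E → (a, c) ∉ E) : 4 * E.card ≤ k ^ 2 := by
  classical
  let G : SimpleGraph (Fin k) := SimpleGraph.fromRel (fun x y => (x, y) ∈ E)
  have hc : G.CliqueFree (2 + 1) := by
    intro s hs
    obtain ⟨a, b, c, hab, hac, hbc, -⟩ := SimpleGraph.is3Clique_iff.1 hs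
    simp only [G, SimpleGraph.fromRel_adj] at hab hac hbc
    rcases hab.2 with x | x <;> rcases hac.2 with y | y <;> rcases hbc.2 with z | z
    all_goals first
      | exact h2 _ _ _ x z y
      | exact h2 _ _ _ y z x
      | exact h2 _ _ _ x y z
      | exact h2 _ _ _ y x z
      | exact h2 _ _ _ z x y
      | exact h2 _ _ _ z y x
      | (have := h1 _ x; have := h1 _ y; have := h1 _ z; simp only at *; omega)
  have h3 := hc.card_edgeFinset_le
  simp only [Fintype.card_fin] at h3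
  have h4 : E.card ≤ G.edgeFinset.card := by
    refine card_le_card_of_injOn (fun e => s(e.1, e.2)) (fun e he => ?_) ?_
    · have he' : e ∈ E := he
      simp only [G, mem_coe, SimpleGraph.mem_edgeFinset, SimpleGraph.mem_edgeSet,
        SimpleGraph.fromRel_adj]
      exact ⟨(h1 e he').ne, Or.inl he'⟩
    · intro e he e' he' h
      have a1 := h1 e he
      have a2 := h1 e' he'
      rcases Sym2.eq_iff.1 h with h | h
      · exact Prod.ext h.1 h.2
      · rw [h.1, h.2] at a1; exact absurd a1 (not_lt.2 a2.le)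
  have h5 : (k % 2).choose 2 = 0 := Nat.choose_eq_zero_of_lt (Nat.mod_lt _ (by norm_num))
  rw [h5] at h3
  omega

def TrIn (E S : Finset (Fin k × Fin k)) : Prop :=
  S ⊆ E ∧ ∀ a b c, (a, b) ∈ S → (b, c) ∈ S → (a, c) ∈ E → (a, c) ∈ S

lemma cntM {β : ℝ} (h1 : β ≤ 1) (h7 : (7 : ℝ) ≤ 2 ^ (3 * β)) (N : ℕ) :
    ∀ E : Finset (Fin k × Fin k), E.card = N → (∀ e ∈ E, e.1 < e.2) →
      cnt (TrIn E) ≤ (2 : ℝ) ^ (β * E.card + (1 - β) * ((k : ℝ) ^ 2 / 4)) := by
  induction N using Nat.strong_induction_on with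
  | _ N ih =>
  intro E hN hE
  by_cases h : ∃ a b c, (a, b) ∈ E ∧ (b, c) ∈ E ∧ (a, c) ∈ E
  · obtain ⟨a, b, c, hab, hbc, hac⟩ := h
    have l1 : a < b := hE _ hab
    have l2 : b < c := hE _ hbc
    set T : Finset (Fin k × Fin k) := {(a, b), (b, c), (a, c)} with hT
    have hTE : T ⊆ E := by
      intro e he; simp only [hT, mem_insert, mem_singleton] at he
      rcases he with rfl | rfl | rfl <;> assumption
    have hT3 : T.card = 3 := by
      rw [hT, card_insert_of_notMem (by simp; omega), card_pair (by simp; omega)]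
    have hc : (E \ T).card + 3 = E.card := by rw [← hT3]; exact card_sdiff_add_card_eq_card hTE
    have ih' := ih (E \ T).card (by omega) (E \ T) rfl (fun e he => hE e (mem_sdiff.1 he).1)
    refine (cnt_union (fun z : Bool × Bool × Bool => ¬ (z.1 = true ∧ z.2.1 = true ∧ z.2.2 = false))
      (fun z S => TrIn E S ∧ decide ((a, b) ∈ S) = z.1 ∧ decide ((b, c) ∈ S) = z.2.1 ∧
        decide ((a, c) ∈ S) = z.2.2) (cnt (TrIn (E \ T))) ?_ ?_).trans ?_
    · intro S hS
      refine ⟨(decide ((a, b) ∈ S), decide ((b, c) ∈ S), decide ((a, c) ∈ S)), ?_, hS, rfl, rfl, rfl⟩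
      simp only [decide_eq_true_eq, decide_eq_false_iff_not, not_and, not_not]
      exact fun x y => hS.2 a b c x y hac
    · rintro ⟨x, y, z⟩ -
      refine cnt_inj (fun S => S \ T) ?_ ?_
      · rintro S ⟨hS, -⟩
        refine ⟨sdiff_subset_sdiff hS.1 le_rfl, fun u v w p q r => ?_⟩
        rw [mem_sdiff] at *
        exact ⟨hS.2 u v w p.1 q.1 r.1, r.2⟩
      · rintro S S' ⟨-, p1, p2, p3⟩ ⟨-, q1, q2, q3⟩ h
        rw [← q1, decide_eq_decide] at p1
        rw [← q2, decide_eq_decide] at p2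
        rw [← q3, decide_eq_decide] at p3
        ext e
        by_cases he : e ∈ T
        · simp only [hT, mem_insert, mem_singleton] at he
          rcases he with rfl | rfl | rfl <;> assumption
        · have := congrArg (e ∈ ·) h
          simpa [he] using this
    · have h3 : cnt (fun z : Bool × Bool × Bool =>
          ¬ (z.1 = true ∧ z.2.1 = true ∧ z.2.2 = false)) = 7 := by
        rw [cnt_eq_card]; exact_mod_cast (by decide)
      rw [h3]
      refine (mul_le_mul h7 ih' (cnt_nonneg _) (by positivity)).trans (le_of_eq ?_)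
      rw [← Real.rpow_add (by norm_num), ← hc]
      congr 1; push_cast; ring
  · push Not at h
    have h3 := mantel E hE h
    have h4 : cnt (TrIn E) ≤ 2 ^ E.card := by
      refine (cnt_mono (r := fun S => S ∈ E.powerset) (fun S hS => mem_powerset.2 hS.1)).trans ?_
      rw [cnt_eq_card, filter_univ_mem, card_powerset]; simp
    refine h4.trans (pow_le_rpow (by norm_num) ?_)
    have : (4 : ℝ) * E.card ≤ k ^ 2 := by exact_mod_cast h3
    nlinarith

variable {M : Type} [Fintype M] [DecidableEq M]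

def EE (v : Fin k → M → Bool) : Finset (Fin k × Fin k) :=
  univ.filter (fun e => e.1 < e.2 ∧ dj (v e.1) (v e.2))

lemma D2_EE (v : Fin k → M → Bool) : D2 dd v = 2 * (EE v).card := by
  have h : ∀ x y : Fin k, (if x ≠ y then dd (v x) (v y) else 0) =
      (if x < y ∧ dj (v x) (v y) then 1 else 0) + (if y < x ∧ dj (v y) (v x) then 1 else 0) := by
    intro x y
    rcases lt_trichotomy x y with h | h | h
    · simp [h, h.ne, h.le, dd]
    · simp [h]
    · simp [h, h.ne', h.le, dd, dj_comm (v x)]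
  unfold D2
  simp only [h, sum_add_distrib]
  rw [sum_comm (f := fun x y => if y < x ∧ dj (v y) (v x) then (1 : ℝ) else 0), ← two_mul, EE,
    card_filter, Fintype.sum_prod_type]
  simp

def Comp (v : Fin k → M → Bool) (P : Finset (Fin k × Fin k)) : Prop :=
  (∀ x y, (x, y) ∈ P → (y, x) ∉ P) ∧ (∀ x y z, (x, y) ∈ P → (y, z) ∈ P → (x, z) ∈ P) ∧
    ∀ x y, (x, y) ∈ P → dj (v x) (v y)

lemma comp3 (v : Fin k → M → Bool) : cnt (Comp v) ≤ 3 ^ (EE v).card := by
  refine (cnt_inj (r := fun f : {e // e ∈ EE v} → Bool × Bool =>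
    ∀ e, ¬ ((f e).1 = true ∧ (f e).2 = true))
    (fun P e => (decide (e.1 ∈ P), decide (e.1.swap ∈ P))) ?_ ?_).trans
    ((cnt_pi (fun _ (z : Bool × Bool) => ¬ (z.1 = true ∧ z.2 = true)) 3 (fun _ => ?_)).trans
      (by simp))
  · rintro P hP ⟨⟨x, y⟩, he⟩
    simpa using hP.1 x y
  · intro P Q hP hQ h
    have key : ∀ x y, (x, y) ∈ EE v → ((x, y) ∈ P ↔ (x, y) ∈ Q) ∧ ((y, x) ∈ P ↔ (y, x) ∈ Q) := by
      intro x y he
      simpa using congrFun h ⟨(x, y), he⟩
    ext ⟨x, y⟩
    by_cases hd : dj (v x) (v y)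
    · rcases lt_trichotomy x y with l | l | l
      · exact (key x y (by simp [EE, l, hd])).1
      · subst l; exact iff_of_false (fun h => hP.1 _ _ h h) (fun h => hQ.1 _ _ h h)
      · exact (key y x (by simp [EE, l, (dj_comm _ _).1 hd])).2
    · exact iff_of_false (fun h => hd (hP.2.2 _ _ h)) (fun h => hd (hQ.2.2 _ _ h))
  · rw [cnt_eq_card]; exact_mod_cast (by decide)

lemma comp2 {β : ℝ} (h1 : β ≤ 1) (h7 : (7 : ℝ) ≤ 2 ^ (3 * β)) (v : Fin k → M → Bool) :
    cnt (Comp v) ≤ k.factorial * (2 : ℝ) ^ (β * (EE v).card + (1 - β) * ((k : ℝ) ^ 2 / 4)) := by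
  refine (cnt_union (fun _ : Equiv.Perm (Fin k) => True)
    (fun σ P => Comp v P ∧ ∀ x y, (σ x, σ y) ∈ P → x < y)
    ((2 : ℝ) ^ (β * (EE v).card + (1 - β) * ((k : ℝ) ^ 2 / 4))) ?_ ?_).trans
    (by rw [cnt_true, Fintype.card_perm, Fintype.card_fin])
  · intro P hP
    let f : Fin k → ℕ := fun y => (univ.filter (fun z => (z, y) ∈ P)).card
    refine ⟨Tuple.sort f, trivial, hP, fun x y h => ?_⟩
    by_contra hn
    have a1 : f (Tuple.sort f y) ≤ f (Tuple.sort f x) := Tuple.monotone_sort f (not_lt.1 hn)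
    have a2 : f (Tuple.sort f x) < f (Tuple.sort f y) := by
      refine card_lt_card ⟨fun z hz => ?_, fun hs => ?_⟩
      · simp only [mem_filter, mem_univ, true_and] at hz ⊢
        exact hP.2.1 _ _ _ hz h
      · have := hs (x := Tuple.sort f x) (by simpa using h)
        simp only [mem_filter, mem_univ, true_and] at this
        exact hP.1 _ _ this this
    omega
  · intro σ _
    have e : ((EE (v ∘ σ)).card : ℝ) = (EE v).card := by
      have := D2_comp dd v σ
      rw [D2_EE, D2_EE] at this; linarith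
    rw [← e]
    refine le_trans (cnt_inj (fun P => univ.filter (fun e => (σ e.1, σ e.2) ∈ P)) ?_ ?_)
      (cntM h1 h7 _ (EE (v ∘ σ)) rfl (fun e he => (mem_filter.1 he).2.1))
    · rintro P ⟨hP, hσ⟩
      refine ⟨fun e he => ?_, fun a b c p q _ => ?_⟩
      · simp only [mem_filter, mem_univ, true_and, EE] at he ⊢
        exact ⟨hσ _ _ he, hP.2.2 _ _ he⟩
      · simp only [mem_filter, mem_univ, true_and] at p q ⊢
        exact hP.2.1 _ _ _ p q
    · intro P Q _ _ h
      ext ⟨x, y⟩
      have := congrArg ((σ.symm x, σ.symm y) ∈ ·) h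
      simpa using this

noncomputable def UU (k : ℕ) (M : Type) [Fintype M] [DecidableEq M] : ℝ :=
  ∑ v : Fin k → M → Bool, cnt (Comp v)

end Pool.Agent.H.MP_72200a_co
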