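import Pool.Agent.H.MP_72200a_co.P

set_option linter.unusedSectionVars false

namespace Pool.Agent.H.MP_72200a_co
open Finset Pool.Agent.H.MP_e84969_co

variable {n k : ℕ}

abbrev BM (n : ℕ) := Fin n → Fin n → Bool

def Reg (A : BM n) : Prop :=
  ∃ X : BM n, ∀ i j, A i j = true ↔ ∃ s t, A i s = true ∧ X s t = true ∧ A t j = true

def Valid (t s : Fin k → Fin n) (A : BM n) : Prop :=
  (∀ x, A (t x) (s x) = true) ∧ (∀ x i j, A i (s x) = true → A (t x) j = true → A i j = true) ∧
    (∀ i j, A i j = true → ∃ x, A i (s x) = true ∧ A (t x) j = true) ∧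
    (∀ x y, A (t x) (s y) = true → A (t y) (s x) = true → x = y)

lemma Valid.tr {t s : Fin k → Fin n} {A : BM n} (h : Valid t s A) : Valid s t (fun j i => A i j) :=
  ⟨h.1, fun x j i a b => h.2.1 x i j b a, fun j i a => (h.2.2.1 i j a).imp (fun _ z => z.symm),
    fun x y a b => h.2.2.2 x y b a⟩

lemma exValid {A : BM n} (hA : Reg A) :
    ∃ (I : Finset (Fin n)) (s : Fin I.card ↪ Fin n), Valid (I.orderEmbOfFin rfl) s A := by
  classical
  obtain ⟨X, hX⟩ := hA
  let L : Fin n → Fin n → Prop := fun t s => ∀ i j, A i s = true → A t j = true → A i j = true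
  have h1 : ∀ i j, A i j = true → ∃ t s, L t s ∧ A i s = true ∧ A t j = true := by
    intro i j h
    obtain ⟨s, t, a, b, c⟩ := (hX i j).1 h
    exact ⟨t, s, fun i' j' p q => (hX i' j').2 ⟨s, t, p, b, q⟩, a, c⟩
  have h2 : ∀ i j, A i j = true → ∃ t s, L t s ∧ A t s = true ∧ A i s = true ∧ A t j = true := by
    intro i j h
    obtain ⟨⟨t, s⟩, hs, hmin⟩ := exists_min_image
      (univ.filter (fun z : Fin n × Fin n => L z.1 z.2 ∧ A i z.2 = true ∧ A z.1 j = true))
      (fun z => (univ.filter (fun i' => A i' z.2 = true)).card)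
      (by obtain ⟨t, s, h⟩ := h1 i j h; exact ⟨(t, s), by simpa using h⟩)
    simp only [mem_filter, mem_univ, true_and] at hs hmin
    obtain ⟨t2, s2, a, b, c⟩ := h1 i s hs.2.1
    have d := hs.1 t2 j c hs.2.2
    have e := eq_of_subset_of_card_le (s := univ.filter (fun i' => A i' s2 = true))
      (t := univ.filter (fun i' => A i' s = true)) (fun i' hi' => by
        simp only [mem_filter, mem_univ, true_and] at hi' ⊢
        exact a i' s hi' c) (hmin (t2, s2) ⟨a, b, d⟩)
    have f : t2 ∈ univ.filter (fun i' => A i' s2 = true) := by rw [e]; simpa using c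
    exact ⟨t2, s2, a, by simpa using f, b, d⟩
  let I := univ.filter (fun t => (∃ s, L t s ∧ A t s = true) ∧ ∀ t', A t' = A t → t ≤ t')
  have hI : ∀ x : Fin I.card, (∃ s, L (I.orderEmbOfFin rfl x) s ∧ A (I.orderEmbOfFin rfl x) s = true) ∧
      ∀ t', A t' = A (I.orderEmbOfFin rfl x) → I.orderEmbOfFin rfl x ≤ t' :=
    fun x => (mem_filter.1 (orderEmbOfFin_mem I rfl x)).2
  choose s hs1 hs2 using fun x => (hI x).1
  have hd : ∀ x y, A (I.orderEmbOfFin rfl x) (s y) = true → A (I.orderEmbOfFin rfl y) (s x) = true →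
      x = y := by
    intro x y a b
    have e : A (I.orderEmbOfFin rfl x) = A (I.orderEmbOfFin rfl y) := by
      funext j
      exact Bool.eq_iff_iff.2 ⟨hs1 x _ j b, hs1 y _ j a⟩
    exact (I.orderEmbOfFin rfl).injective (le_antisymm ((hI x).2 _ e.symm) ((hI y).2 _ e))
  refine ⟨I, ⟨s, fun x y h => hd x y (h ▸ hs2 x) (h ▸ hs2 y)⟩, hs2, fun x => hs1 x, ?_, hd⟩
  intro i j h
  obtain ⟨t', s', a, b, c, d⟩ := h2 i j h
  obtain ⟨t, ht, hmin⟩ := exists_min_image (univ.filter (fun t => A t = A t')) id ⟨t', by simp⟩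
  simp only [mem_filter, mem_univ, true_and, id] at ht hmin
  have htI : t ∈ I := by
    simp only [I, mem_filter, mem_univ, true_and]
    exact ⟨⟨s', fun i j p q => a i j p (ht ▸ q), ht ▸ b⟩, fun u hu => hmin u (hu.trans ht)⟩
  obtain ⟨x, hx⟩ : t ∈ Set.range (I.orderEmbOfFin rfl) := by
    rw [range_orderEmbOfFin]; exact htI
  refine ⟨x, a i _ c ?_, ?_⟩
  · rw [← ht, ← hx]; exact hs2 x
  · change A (I.orderEmbOfFin rfl x) j = true
    rw [hx, ht]; exact d

lemma exmax {t s : Fin k → Fin n} {A : BM n} (h : Valid t s A) (i : Fin n) (y : Fin k)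
    (hy : A i (s y) = true) : ∃ x, A (t x) (s y) = true ∧ A i (s x) = true ∧
      ∀ z, A i (s z) = true → A (t z) (s x) = true → z = x := by
  obtain ⟨x, hx, hmax⟩ := exists_max_image
    (univ.filter (fun x => A (t x) (s y) = true ∧ A i (s x) = true))
    (fun x => (univ.filter (fun z => A (t x) (s z) = true)).card) ⟨y, by simp [hy, h.1]⟩
  simp only [mem_filter, mem_univ, true_and] at hx hmax
  refine ⟨x, hx.1, hx.2, fun z a b => ?_⟩
  have e := eq_of_subset_of_card_le (s := univ.filter (fun w => A (t x) (s w) = true))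
    (t := univ.filter (fun w => A (t z) (s w) = true)) (fun w hw => by
      simp only [mem_filter, mem_univ, true_and] at hw ⊢
      exact h.2.1 x _ _ b hw) (hmax z ⟨h.2.1 x _ _ b hx.1, a⟩)
  have f : z ∈ univ.filter (fun w => A (t x) (s w) = true) := by rw [e]; simp [h.1]
  exact h.2.2.2 z x b (by simpa using f)

def mx (t s : Fin k → Fin n) (A : BM n) (x : Fin k) (i : Fin n) : Bool :=
  decide (A i (s x) = true ∧ ∀ z, A i (s z) = true → A (t z) (s x) = true → z = x)

lemma half {t s : Fin k → Fin n} {A B : BM n} (hA : Valid t s A) (hB : Valid t s B)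
    (h1 : ∀ x y, A (t x) (s y) = B (t x) (s y))
    (h2 : ∀ x i, i ∉ Set.range t → mx t s A x i = mx t s B x i) (i : Fin n) (y : Fin k)
    (h : A i (s y) = true) : B i (s y) = true := by
  by_cases hi : i ∈ Set.range t
  · obtain ⟨x, rfl⟩ := hi; rw [← h1]; exact h
  obtain ⟨x, a, b, c⟩ := exmax hA i y h
  have e : mx t s B x i = true := by rw [← h2 x i hi]; exact decide_eq_true ⟨b, c⟩
  exact hB.2.1 x _ _ (of_decide_eq_true e).1 (h1 x y ▸ a)

lemma valid_le (t s : Fin k → Fin n) :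
    cnt (Valid t s) ≤ UU k ({i // i ∉ Set.range t} ⊕ {j // j ∉ Set.range s}) := by
  let vA : BM n → Fin k → ({i // i ∉ Set.range t} ⊕ {j // j ∉ Set.range s}) → Bool :=
    fun A x => Sum.elim (fun i => mx t s A x i) (fun j => mx s t (fun j i => A i j) x j)
  refine (cnt_sum univ (fun v A => Valid t s A ∧ vA A = v)
    (fun A hA => ⟨_, mem_univ _, hA, rfl⟩)).trans (sum_le_sum (fun v _ => ?_))
  refine cnt_inj (fun A => univ.filter (fun e => e.1 ≠ e.2 ∧ A (t e.1) (s e.2) = true)) ?_ ?_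
  · rintro A ⟨hA, rfl⟩
    simp only [Comp, mem_filter, mem_univ, true_and]
    refine ⟨fun x y a b => a.1 (hA.2.2.2 x y a.2 b.2), fun x y z a b => ⟨?_, hA.2.1 y _ _ a.2 b.2⟩,
      fun x y a l => ?_⟩
    · rintro rfl; exact a.1 (hA.2.2.2 _ _ a.2 b.2)
    · rcases l with i | j
      · rintro ⟨p, q⟩
        exact a.1 ((of_decide_eq_true q).2 x (of_decide_eq_true p).1 a.2)
      · rintro ⟨p, q⟩
        exact a.1 ((of_decide_eq_true p).2 y (of_decide_eq_true q).1 a.2).symm
  · rintro A B ⟨hA, e1⟩ ⟨hB, e2⟩ h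
    have h1 : ∀ x y, A (t x) (s y) = B (t x) (s y) := by
      intro x y
      by_cases hxy : x = y
      · rw [hxy, hA.1, hB.1]
      · have := congrArg ((x, y) ∈ ·) h
        simpa [hxy] using this
    have e := e1.trans e2.symm
    have h2 : ∀ x i, i ∉ Set.range t → mx t s A x i = mx t s B x i :=
      fun x i hi => congrFun (congrFun e x) (Sum.inl ⟨i, hi⟩)
    have h3 : ∀ x j, j ∉ Set.range s →
        mx s t (fun j i => A i j) x j = mx s t (fun j i => B i j) x j :=
      fun x j hj => congrFun (congrFun e x) (Sum.inr ⟨j, hj⟩)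
    funext i j
    refine Bool.eq_iff_iff.2 ⟨fun a => ?_, fun a => ?_⟩
    · obtain ⟨x, p, q⟩ := hA.2.2.1 i j a
      exact hB.2.1 x i j (half hA hB h1 h2 i x p)
        (half hA.tr hB.tr (fun x y => h1 y x) h3 j x q)
    · obtain ⟨x, p, q⟩ := hB.2.2.1 i j a
      exact hA.2.1 x i j (half hB hA (fun x y => (h1 x y).symm) (fun x i h => (h2 x i h).symm) i x p)
        (half hB.tr hA.tr (fun x y => (h1 y x).symm) (fun x i h => (h3 x i h).symm) j x q)

lemma card_nr {t : Fin k → Fin n} (ht : Function.Injective t) :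
    Fintype.card {i // i ∉ Set.range t} = n - k := by
  classical
  rw [Fintype.card_subtype_compl, Fintype.card_fin, Set.card_range_of_injective ht, Fintype.card_fin]

lemma card_par : (Fintype.card ({I : Finset (Fin n) // I.card = k} × (Fin k ↪ Fin n)) : ℝ) =
    n.choose k * n.descFactorial k := by
  simp [Fintype.card_embedding_eq]

lemma upper (u : ℕ → ℝ) (hu : ∀ k ≤ n, ∀ (M : Type) [Fintype M] [DecidableEq M],
      Fintype.card M = 2 * (n - k) → UU k M ≤ u k) :
    cnt (Reg (n := n)) ≤ ∑ k ∈ range (n + 1), n.choose k * n.descFactorial k * u k := by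
  refine (cnt_sum (range (n + 1)) (fun k A =>
    ∃ b : {I : Finset (Fin n) // I.card = k} × (Fin k ↪ Fin n),
      True ∧ Valid (b.1.1.orderEmbOfFin b.1.2) b.2 A) ?_).trans (sum_le_sum (fun k hk => ?_))
  · intro A hA
    obtain ⟨I, s, h⟩ := exValid hA
    exact ⟨I.card, by simpa [Nat.lt_succ_iff] using card_le_univ I, (⟨I, rfl⟩, s), trivial, h⟩
  · rw [← card_par, ← cnt_true]
    refine cnt_union _ _ _ (fun A hA => hA) (fun b _ => (valid_le _ _).trans (hu k ?_ _ ?_))
    · simpa [Nat.lt_succ_iff] using hk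
    · rw [Fintype.card_sum, card_nr (b.1.1.orderEmbOfFin b.1.2).injective, card_nr b.2.injective]
      ring

def dl (x : Fin k) : Fin k → Bool := fun y => decide (y = x)

def Cond (t : Fin k → Fin n) (D : Fin n → Fin k → Bool) : Prop :=
  (∀ x, D (t x) = dl x) ∧ ∀ i, i ∉ Set.range t → ∀ x, D i ≠ dl x

lemma cond_ge {t : Fin k → Fin n} (ht : Function.Injective t) :
    ((2 : ℝ) ^ k - k) ^ (n - k) ≤ cnt (Cond t) := by
  classical
  have h1 : (2 : ℝ) ^ k - k ≤ Fintype.card {w : Fin k → Bool // ∀ x, w ≠ dl x} := by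
    have a1 := cnt_or (p := fun _ : Fin k → Bool => True) (r := fun w => ∀ x, w ≠ dl x)
      (s := fun w => ∃ x, True ∧ dl x = w) (fun w _ => by
        by_cases h : ∀ x, w ≠ dl x
        · exact Or.inl h
        · push Not at h; obtain ⟨x, hx⟩ := h; exact Or.inr ⟨x, trivial, hx.symm⟩)
    have a2 := cnt_surj (p := fun _ : Fin k => True) (r := fun w => ∃ x, True ∧ dl x = w) dl
      (fun w h => h)
    rw [cnt_true] at a1 a2
    rw [cnt_natCard, Nat.card_eq_fintype_card] at a1
    simp only [Fintype.card_pi, Fintype.card_bool, prod_const, card_univ, Fintype.card_fin] at a1 a2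
    push_cast at a1
    linarith
  have h0 : (0 : ℝ) ≤ 2 ^ k - k := by
    have : (k : ℝ) < 2 ^ k := by exact_mod_cast Nat.lt_two_pow_self
    linarith
  refine (pow_le_pow_left₀ h0 h1 _).trans ?_
  rw [← card_nr ht, ← Nat.cast_pow, ← Fintype.card_fun, ← cnt_true]
  refine cnt_inj (fun g i => if h : i ∈ Set.range t then dl h.choose else (g ⟨i, h⟩).1)
    (fun g _ => ⟨fun x => ?_, fun i hi x => ?_⟩) (fun g g' _ _ h => ?_)
  · have h : t x ∈ Set.range t := ⟨x, rfl⟩
    simp only [dif_pos h]; rw [ht h.choose_spec]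
  · simp only [dif_neg hi]; exact (g ⟨i, hi⟩).2 x
  · funext i
    have := congrFun h i
    simp only [dif_neg i.2] at this
    exact Subtype.ext this

def mat (D U : Fin n → Fin k → Bool) : BM n := fun i j => decide (∃ x, D i x = true ∧ U j x = true)

lemma mat_t {t : Fin k → Fin n} {D U : Fin n → Fin k → Bool} (h : Cond t D) (x j) :
    mat D U (t x) j = U j x := by
  simp [mat, h.1, dl]

lemma mat_s {s : Fin k → Fin n} {D U : Fin n → Fin k → Bool} (h : Cond s U) (x i) :
    mat D U i (s x) = D i x := by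
  simp [mat, h.1, dl]

def MR (A : BM n) : Finset (Fin n) :=
  univ.filter (fun i => (∃ j, A i j = true) ∧ ∀ i', (∃ j, A i' j = true) →
    (∀ j, A i' j = true → A i j = true) → ∀ j, A i j = true → A i' j = true)

lemma mem_MR {t s : Fin k → Fin n} {D U : Fin n → Fin k → Bool} (hD : Cond t D) (hU : Cond s U)
    (i : Fin n) : i ∈ MR (mat D U) ↔ i ∈ Set.range t := by
  simp only [MR, mem_filter, mem_univ, true_and]
  constructor
  · rintro ⟨⟨j, hj⟩, h⟩
    by_contra hi
    obtain ⟨x, hx, -⟩ := of_decide_eq_true hj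
    refine hD.2 i hi x (funext (fun y => ?_))
    have h1 := h (t x) ⟨s x, by rw [mat_s hU, hD.1]; simp [dl]⟩ (fun j hj => by
      rw [mat_t hD] at hj; exact decide_eq_true ⟨x, hx, hj⟩) (s y)
    rw [mat_s hU, mat_s hU, hD.1] at h1
    refine Bool.eq_iff_iff.2 ⟨h1, fun h => ?_⟩
    rw [of_decide_eq_true h]; exact hx
  · rintro ⟨x, rfl⟩
    refine ⟨⟨s x, by rw [mat_s hU, hD.1]; simp [dl]⟩, ?_⟩
    rintro i' ⟨j, hj⟩ h j' hj'
    obtain ⟨y, hy, -⟩ := of_decide_eq_true hj
    have h1 := h (s y) (by rw [mat_s hU]; exact hy)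
    rw [mat_s hU, hD.1] at h1
    rw [mat_t hD] at hj'
    exact decide_eq_true ⟨x, of_decide_eq_true h1 ▸ hy, hj'⟩

lemma reg_mat {t s : Fin k → Fin n} {D U : Fin n → Fin k → Bool} (hD : Cond t D) (hU : Cond s U) :
    Reg (mat D U) := by
  classical
  refine ⟨fun a b => decide (∃ x, s x = a ∧ t x = b), fun i j => ⟨fun h => ?_, ?_⟩⟩
  · obtain ⟨x, p, q⟩ := of_decide_eq_true h
    exact ⟨s x, t x, by rwa [mat_s hU], decide_eq_true ⟨x, rfl, rfl⟩, by rwa [mat_t hD]⟩
  · rintro ⟨a, b, p, q, r⟩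
    obtain ⟨x, rfl, rfl⟩ := of_decide_eq_true q
    rw [mat_s hU] at p
    rw [mat_t hD] at r
    exact decide_eq_true ⟨x, p, r⟩

lemma lower : ∑ k ∈ range (n + 1), n.choose k * n.descFactorial k * ((2 : ℝ) ^ k - k) ^ (2 * (n - k))
    ≤ cnt (Reg (n := n)) := by
  refine le_trans (sum_le_sum (fun k _ => ?_)) (cnt_fib (range (n + 1)) (fun A => (MR A).card))
  have h0 : (0 : ℝ) ≤ 2 ^ k - k := by
    have : (k : ℝ) < 2 ^ k := by exact_mod_cast Nat.lt_two_pow_self
    linarith
  have hMR : ∀ (I : {I : Finset (Fin n) // I.card = k}) (s : Fin k → Fin n)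
      (D U : Fin n → Fin k → Bool), Cond (I.1.orderEmbOfFin I.2) D → Cond s U →
      MR (mat D U) = I.1 := by
    intro I s D U hD hU
    ext i; rw [mem_MR hD hU, range_orderEmbOfFin]; rfl
  rw [← card_par, ← cnt_true]
  refine le_trans (cnt_lower
    (p := fun z : ({I : Finset (Fin n) // I.card = k} × (Fin k ↪ Fin n)) ×
      (Fin n → Fin k → Bool) × (Fin n → Fin k → Bool) =>
      Cond (z.1.1.1.orderEmbOfFin z.1.1.2) z.2.1 ∧ Cond z.1.2 z.2.2) _ (fun z => z.1) _ ?_)
    (cnt_inj (fun z => mat z.2.1 z.2.2) ?_ ?_)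
  · intro b _
    rw [two_mul, pow_add]
    refine (mul_le_mul (cond_ge (b.1.1.orderEmbOfFin b.1.2).injective) le_rfl (pow_nonneg h0 _)
      (cnt_nonneg _)).trans (cnt_lower _ (fun z => z.2.1) _ (fun D hD => ?_))
    refine (cond_ge b.2.injective).trans (cnt_inj (fun U => (b, D, U))
      (fun U hU => ⟨⟨⟨hD, hU⟩, rfl⟩, rfl⟩) (fun _ _ _ _ h => by simpa using h))
  · rintro ⟨⟨I, s⟩, D, U⟩ ⟨hD, hU⟩
    exact ⟨reg_mat hD hU, by rw [hMR I s D U hD hU]; exact I.2⟩
  · rintro ⟨⟨I, s⟩, D, U⟩ ⟨⟨I', s'⟩, D', U'⟩ ⟨hD, hU⟩ ⟨hD', hU'⟩ h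
    simp only at hD hU hD' hU' h
    have e1 : I = I' := Subtype.ext (by rw [← hMR I s D U hD hU, h, hMR I' s' D' U' hD' hU'])
    subst e1
    have e2 : U = U' := by
      funext j x; rw [← mat_t (U := U) hD, h, mat_t hD']
    subst e2
    have e3 : s = s' := by
      ext x
      by_cases hx : s x ∈ Set.range s'
      · obtain ⟨y, hy⟩ := hx
        have a := hU'.1 y
        rw [hy, hU.1] at a
        have b := congrFun a x
        simp only [dl, decide_true, true_eq_decide_iff] at b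
        rw [← hy, b]
      · exact absurd (hU.1 x) (hU'.2 _ hx x)
    subst e3
    have e4 : D = D' := by
      funext i x; rw [← mat_s (D := D) hU, h, mat_s hU]
    rw [e4]

end Pool.Agent.H.MP_72200a_co
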